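import Pool.Agent.P.MP_961199_an.Hom.Chaos

set_option autoImplicit false

namespace Pool.Agent.Results.MP_961199_an.HomogChaos

open Pool.Agent.P.MP_961199_an.Hom

/-- For `0 < p ≤ 2` the optimal constant `C` in `‖h‖_2 ≤ C^d ‖h‖_p` on the homogeneous Wiener
chaos of order `d` is `√(2/p)`, and the same constant is optimal for the projection of the
polynomials of degree at most `d` onto that chaos. -/
theorem result (p : ℝ) (hp : 0 < p) (hp2 : p ≤ 2) (C : ℝ) (hC : 0 < C) :
    List.TFAE
      [Real.sqrt (2 / p) ≤ C,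
       ∀ (n d : ℕ) (h : MvPolynomial (Fin n) ℝ), IsChaos d h → gNorm 2 h ≤ C ^ d * gNorm p h,
       ∀ (n d : ℕ) (h g : MvPolynomial (Fin n) ℝ), IsChaos d h → g.totalDegree < d →
         gNorm 2 h ≤ C ^ d * gNorm p (h + g)] := by
  tfae_have 1 → 2 := fun h1 n d h hh => by
    simpa using upper hp hp2 h1 hh (g := 0) (Or.inl rfl)
  tfae_have 1 → 3 := fun h1 n d h g hh hg => upper hp hp2 h1 hh (Or.inr hg)
  tfae_have 2 → 1 := fun h2 => lower hp hC fun d h _ hh => h2 2 d h hh
  tfae_have 3 → 1 := fun h3 => lower hp hC fun d h hd hh => by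
    simpa using h3 2 d h 0 hh (by simpa using hd)
  tfae_finish

end Pool.Agent.Results.MP_961199_an.HomogChaos
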