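import Pool.Agent.P.MP_961199_an.Upper
import Pool.Agent.P.MP_961199_an.Lower

set_option autoImplicit false

namespace Pool.Agent.Results.MP_961199_an.OptimalConstant

open Pool.Agent.P.MP_961199_an

/-- For all real `1 ≤ p < q`, the least constant `C > 0` such that
`‖f‖_q ≤ C ^ (deg f) * ‖f‖_p` for every `n ≥ 1` and every real function `f` on `{-1,1}^n`
is `√(2q/p - 1)`. -/
theorem result (p q : ℝ) (hp : 1 ≤ p) (hpq : p < q) :
    IsLeast
      {C : ℝ | 0 < C ∧ ∀ n : ℕ, 1 ≤ n → ∀ f : Cube n → ℝ,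
        lpNorm q f ≤ C ^ deg f * lpNorm p f}
      (Real.sqrt (2 * q / p - 1)) := by
  have hp0 : 0 < p := by linarith
  refine ⟨⟨?_, fun n _ f => upper_bound hp hpq f⟩, fun C hC => lower_bound hp hpq hC.1 hC.2⟩
  apply Real.sqrt_pos.2
  rw [sub_pos, lt_div_iff₀ hp0]
  linarith

end Pool.Agent.Results.MP_961199_an.OptimalConstant
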